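import Pool.Agent.Helper8_HK.Stmt0
import Pool.Agent.Helper8_HK.Stmt3

/-! # Squad HK (MP_574a97_nt): module BFI. -/

set_option autoImplicit false

namespace Pool.Agent.HK.H34

open Polynomial Pool.Agent.HK

/-- BFI -/
theorem bfi (hEXP : EXPStmt) (hUNQ : UNQStmt) (hBNC : BNCStmt) (hMTX : MTXStmt) : BFIStmt := by
  intro F _ _ C _ _ _ _ ι ρ hctx n hn hirr f hf e he c a hc ha
  obtain ⟨B, hB⟩ := hBNC F C ι hctx.ok n hn hirr f hf
  have hper : ∀ x : F[X], slash ι (mat 1 (emb F (1 * x)) 0 1) f = f := by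
    intro x
    obtain ⟨-, -, -, -, -, -, -, -, -, -, -, -, -, h14, -⟩ := hMTX F
    obtain ⟨γ, hγ, hγ2⟩ := h14 (1 * x) n
    rw [← hγ2]
    exact hf.modular γ hγ
  obtain ⟨m, hm, -, hm2⟩ := hEXP F C ι ρ hctx f B 1 hf.off hf.holo hB one_ne_zero hper
  have ha' : HasExp ι 1 1 f (fun i => a i * (c⁻¹) ^ i) := by
    obtain ⟨R, hR⟩ := ha
    refine ⟨R, fun z hz hi => ?_⟩
    have h1 := hR z hz hi
    have h2 : (fun i : ℕ => a i * (c⁻¹ * tb ι 1 z) ^ i) =
        (fun i : ℕ => a i * (c⁻¹) ^ i * ((1 : C)⁻¹ * tb ι 1 z) ^ i) := by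
      funext i
      rw [inv_one, one_mul, mul_pow, mul_assoc]
    rw [h2] at h1
    exact h1
  have hu := hUNQ F C ι hctx.ok 1 1 f _ _ one_ne_zero one_ne_zero ha' hm
  have hq : Fintype.card F ≠ 0 := Fintype.card_ne_zero
  have h3 := congrFun hu (Fintype.card F)
  simp only [hq, if_false] at h3
  rw [hm2 rfl e he] at h3
  have hcq : c ^ (Fintype.card F) ≠ 0 := pow_ne_zero _ hc
  rw [← h3, inv_pow]
  field_simp

end Pool.Agent.HK.H34
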