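import Pool.Agent.Helper8_HK.Stmt0
import Pool.Agent.Helper8_HK.Stmt1

/-! # Squad HK (MP_574a97_nt): modules COS and ATK. -/

set_option autoImplicit false

namespace Pool.Agent.HK.H34

open Polynomial Pool.Agent.HK

variable {F : Type} [Field F]

/-- `toK γ` in terms of `mat`, with nonvanishing determinant -/
lemma toK_mat (hMTX : MTXStmt) (γ : GLA F) :
    (toK γ : GLK F) = mat (emb F (γ 0 0)) (emb F (γ 0 1)) (emb F (γ 1 0)) (emb F (γ 1 1)) ∧
    emb F (γ 0 0) * emb F (γ 1 1) - emb F (γ 0 1) * emb F (γ 1 0) ≠ 0 := by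
  obtain ⟨-, h2, -, -, -, -, -, -, -, -, -, h12, -⟩ := hMTX F
  obtain ⟨a, b⟩ := h2 (toK γ)
  obtain ⟨e1, e2, e3, e4⟩ := h12 γ
  rw [e1, e2, e3, e4] at a b
  exact ⟨a, b⟩

/-- existence of an element of `GL_2(A)` with given entries of unit determinant -/
lemma exists_gam (hMTX : MTXStmt) (a b c d : F[X]) (h : IsUnit (a * d - b * c)) :
    ∃ γ : GLA F, γ 1 0 = c ∧
      (toK γ : GLK F) = mat (emb F a) (emb F b) (emb F c) (emb F d) ∧
      emb F a * emb F d - emb F b * emb F c ≠ 0 := by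
  obtain ⟨-, -, -, -, -, -, -, -, -, -, -, -, h13, -⟩ := hMTX F
  obtain ⟨γ, e1, e2, e3, e4⟩ := h13 a b c d h
  obtain ⟨f1, f2⟩ := toK_mat hMTX γ
  rw [e1, e2, e3, e4] at f1 f2
  exact ⟨γ, e3, f1, f2⟩

lemma det_unit (γ : GLA F) : IsUnit (γ 0 0 * γ 1 1 - γ 0 1 * γ 1 0) := by
  have h := (Matrix.isUnit_iff_isUnit_det (γ : Matrix (Fin 2) (Fin 2) F[X])).1 γ.isUnit
  rwa [Matrix.det_fin_two] at h

lemma mat_mul (hMTX : MTXStmt) {a b c d a' b' c' d' : Kinf F} (h : a * d - b * c ≠ 0)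
    (h' : a' * d' - b' * c' ≠ 0) :
    mat a b c d * mat a' b' c' d' =
      mat (a * a' + b * c') (a * b' + b * d') (c * a' + d * c') (c * b' + d * d') := by
  obtain ⟨-, -, h3, -⟩ := hMTX F
  exact h3 a b c d a' b' c' d' h h'

/-- COS -/
theorem cos (hMTX : MTXStmt) : COSStmt := by
  intro F _ n hn hirr
  refine ⟨fun γ => ?_, fun x y hxy => ?_, fun κ x hx => ?_⟩
  · by_cases hc : n ∣ γ 1 0
    · exact Or.inl hc
    · right
      have hcop : IsCoprime n (γ 1 0) := (hirr.coprime_iff_not_dvd).2 hc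
      obtain ⟨u, v, huv⟩ := hcop
      set x : F[X] := (v * γ 1 1) %ₘ n with hx
      have hdeg : x.degree < n.degree := degree_modByMonic_lt _ hn
      have hdvd : n ∣ γ 1 0 * x - γ 1 1 := by
        have h1 : n ∣ v * γ 1 1 - x := by
          rw [hx]
          have := modByMonic_add_div (v * γ 1 1) n
          exact ⟨(v * γ 1 1) /ₘ n, by linear_combination -this⟩
        obtain ⟨w, hw⟩ := h1
        refine ⟨-(γ 1 0 * w) - u * γ 1 1, ?_⟩
        linear_combination (-(γ 1 0)) * hw + (γ 1 1) * huv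
      have hu := det_unit γ
      have hdet : (γ 0 0 * x - γ 0 1) * γ 1 0 - γ 0 0 * (γ 1 0 * x - γ 1 1)
          = γ 0 0 * γ 1 1 - γ 0 1 * γ 1 0 := by ring
      obtain ⟨δ, e1, e2, e3⟩ := exists_gam hMTX (γ 0 0 * x - γ 0 1) (γ 0 0)
        (γ 1 0 * x - γ 1 1) (γ 1 0) (by rw [hdet]; exact hu)
      refine ⟨δ, ?_, x, hdeg, ?_⟩
      · show n ∣ δ 1 0
        rw [e1]; exact hdvd
      · rw [e2, (toK_mat hMTX γ).1, mat_mul hMTX e3 (by simp)]
        congr 1 <;> simp only [map_sub, map_mul] <;> ring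
  · obtain ⟨δ, e1, e2, e3⟩ := exists_gam hMTX (1 : F[X]) 0 (y - x) 1 (by simp)
    refine ⟨δ, ?_, ?_⟩
    · show n ∣ δ 1 0
      rw [e1]
      have := (dvd_neg (a := n) (b := x - y)).2 hxy
      rwa [neg_sub] at this
    · rw [e2, mat_mul hMTX e3 (by simp)]
      congr 1 <;> simp only [map_sub, map_one, map_zero] <;> ring
  · obtain ⟨δ, e1, e2, e3⟩ := exists_gam hMTX x 1 (1 - κ * x) (-κ) (by
      have : x * -κ - 1 * (1 - κ * x) = -1 := by ring
      rw [this]; exact isUnit_one.neg)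
    refine ⟨δ, ?_, ?_⟩
    · show n ∣ δ 1 0
      rw [e1]
      have := (dvd_neg (a := n) (b := κ * x - 1)).2 hx
      rwa [neg_sub] at this
    · rw [e2, mat_mul hMTX e3 (by simp)]
      congr 1 <;> simp only [map_sub, map_mul, map_neg, map_one] <;> ring

lemma emb_coeff (a : F[X]) (i : ℕ) : HahnSeries.coeff (emb F a) (-(i : ℤ)) = a.coeff i := by
  induction a using Polynomial.induction_on' with
  | add p q hp hq => rw [map_add, HahnSeries.coeff_add, hp, hq, Polynomial.coeff_add]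
  | monomial n c =>
    have h : emb F (monomial n c) = HahnSeries.single (-(n : ℤ)) c := by
      rw [emb, Polynomial.coe_eval₂RingHom, Polynomial.eval₂_monomial, HahnSeries.single_pow, cst,
        HahnSeries.C_apply, HahnSeries.single_mul_single]
      simp
    rw [h, HahnSeries.coeff_single, Polynomial.coeff_monomial]
    by_cases hni : n = i
    · subst hni; simp
    · have h2 : ¬ (-(i : ℤ) = -(n : ℤ)) := by omega
      rw [if_neg h2, if_neg hni]

lemma emb_ne_zero {n : F[X]} (hn : n ≠ 0) : emb F n ≠ 0 := by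
  intro h
  apply hn
  ext i
  rw [← emb_coeff, h]
  simp

lemma one_mem : (1 : GLK F) ∈ Iwahori := by
  refine ⟨?_, ?_, ?_, ?_, ?_, ?_⟩
  · intro i hi
    simp [HahnSeries.coeff_one, hi.ne]
  · intro i hi
    simp
  · intro i hi
    simp
  · intro i hi
    simp [HahnSeries.coeff_one, hi.ne]
  · simp [HahnSeries.coeff_one]
  · simp [HahnSeries.coeff_one]

/-- ATK -/
theorem atk (hMTX : MTXStmt) (hVAL : VALStmt) : ATKStmt := by
  intro F _ _ R _ n hn φ hφ hinv
  have hn' : emb F n ≠ 0 := emb_ne_zero hn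
  obtain ⟨-, -, -, -, -, -, -, -, -, -, -, -, -, -, -, -, -⟩ := hMTX F
  have hW : (0 : Kinf F) * 0 - (-1) * emb F n ≠ 0 := by simpa using hn'
  have hWW : (Wmat n : GLK F) * Wmat n = scal (-(emb F n)) := by
    rw [Wmat, mat_mul hMTX hW hW, scal]
    congr 1 <;> ring
  have hcomm : ∀ g : GLK F, Wmat n * (Wmat n * g) = g * scal (-(emb F n)) := by
    intro g
    obtain ⟨-, -, -, -, -, h6, -⟩ := hMTX F
    rw [← mul_assoc, hWW, h6 _ g (neg_ne_zero.2 hn')]
  obtain ⟨-, -, -, -, h5, -⟩ := hVAL F R φ hφ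
  refine ⟨h5 (Wmat n), ?_, ?_⟩
  · intro γ hγ g
    obtain ⟨c', hc'⟩ : n ∣ γ 1 0 := hγ
    have hu := det_unit γ
    obtain ⟨δ, e1, e2, e3⟩ := exists_gam hMTX (γ 1 1) (-c') (-(n * γ 0 1)) (γ 0 0) (by
      have : γ 1 1 * γ 0 0 - -c' * -(n * γ 0 1) = γ 0 0 * γ 1 1 - γ 0 1 * γ 1 0 := by
        rw [hc']; ring
      rw [this]; exact hu)
    have hδ : δ ∈ Gam0 n := by
      show n ∣ δ 1 0
      rw [e1]; exact (dvd_neg).2 (dvd_mul_right _ _)
    have key : (Wmat n : GLK F) * toK γ = toK δ * Wmat n := by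
      obtain ⟨f1, f2⟩ := toK_mat hMTX γ
      rw [e2, f1, Wmat, mat_mul hMTX hW f2, mat_mul hMTX e3 hW, hc']
      congr 1 <;> simp only [map_mul, map_neg] <;> ring
    show φ (Wmat n * (toK γ * g)) = φ (Wmat n * g)
    rw [← mul_assoc, key, mul_assoc]
    exact hinv δ hδ _
  · funext g
    show φ (Wmat n * (Wmat n * g)) = φ g
    rw [hcomm g]
    have := hφ.inv g (-(emb F n)) 1 (neg_ne_zero.2 hn') one_mem
    rwa [mul_one] at this

end Pool.Agent.HK.H34
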